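import Pool.Agent.W218.OG.Main

/-!
# Gaps between the primes of Cunningham orbits of the second kind

`a_j(p) = 2 ^ j * (p - 1) + 1`. For every `ε > 0` there is `M` such that for EVERY multiple `N` of `M`
there is `L` such that among any `T ≥ L` consecutive multiples `j` of `N` at least `(2/5 - ε) T` are
gaps: for at least `x ^ (1 - η)` primes `p ≤ x`, for every `η > 0` and arbitrarily large `x`, the
number `a_j(p)` is prime and `a_1(p), ..., a_(j-1)(p)` are all composite. For at least `(1/2 - ε) T` of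
them `a_j(p)` is prime and at most `J` of `a_1(p), ..., a_(j-1)(p)` are prime, where `J` depends only on
`ε`.

Proof: the coloured Maynard-Tao theorem of the starting files (`Pool.Agent.H732R3.QuarterB`) for the
values of an orbit at prescribed times, all other values being made composite by congruences, and
helper142's theorems on sets of differences (`Pool.Agent.W142.TF.s_maiF`, `s_maiG`).
-/

namespace Pool.Agent.Results.MP_39b545_nt.OrbitGaps

open Filter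

theorem result (ε : ℝ) (hε : 0 < ε) :
    (∃ M : ℕ, 0 < M ∧ ∀ N : ℕ, 0 < N → M ∣ N → ∃ L : ℕ, ∀ T : ℕ, L ≤ T → ∀ u : ℕ,
      (2 / 5 - ε) * (T : ℝ) ≤ ({k : ℕ | u < k ∧ k ≤ u + T ∧ ∀ η : ℝ, 0 < η → ∃ᶠ x : ℝ in atTop,
        x ^ (1 - η) ≤ ({p : ℕ | (p : ℝ) ≤ x ∧ p.Prime ∧ (2 ^ (N * k) * (p - 1) + 1).Prime ∧
          ∀ l, 0 < l → l < N * k → ¬ (2 ^ l * (p - 1) + 1).Prime}.ncard : ℝ)}.ncard : ℝ)) ∧
    ∃ J M : ℕ, 0 < M ∧ ∀ N : ℕ, 0 < N → M ∣ N → ∃ L : ℕ, ∀ T : ℕ, L ≤ T → ∀ u : ℕ,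
      (1 / 2 - ε) * (T : ℝ) ≤ ({k : ℕ | u < k ∧ k ≤ u + T ∧ ∀ η : ℝ, 0 < η → ∃ᶠ x : ℝ in atTop,
        x ^ (1 - η) ≤ ({p : ℕ | (p : ℝ) ≤ x ∧ p.Prime ∧ (2 ^ (N * k) * (p - 1) + 1).Prime ∧
          {l : ℕ | 0 < l ∧ l < N * k ∧ (2 ^ l * (p - 1) + 1).Prime}.ncard ≤ J}.ncard : ℝ)}.ncard :
            ℝ) := by
  refine Pool.Agent.W218.OG.transfer 2 (-1) le_rfl (by norm_num) (by norm_num)
    (fun p hp h => hp.one_lt.ne' (Nat.dvd_one.1 (by simpa using h)))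
    (fun p j => 2 ^ j * (p - 1) + 1) (fun p j hp => ?_) ε hε
  have h1 : 1 ≤ p := hp.one_lt.le
  rw [Pool.Agent.H447R3.IT.iter, Pool.Agent.W218.OG.B_two]
  push_cast [Nat.cast_sub h1]
  ring

end Pool.Agent.Results.MP_39b545_nt.OrbitGaps
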